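import Mathlib
import Pool.Agent.P.MP_af70e5_co.Zero

set_option autoImplicit false

namespace Pool.Agent.Results.MP_af70e5_co.Routing

variable {V E : Type} [DecidableEq V] [Fintype E] [DecidableEq E]

/-- In the multigraph whose edge `e` has ends `a e` and `b e`, every vertex has even degree in the
edge set `C`. -/
def EvenSet (a b : E → V) (C : Finset E) : Prop :=
  ∀ v : V, Even ((C.filter (fun e => a e = v)).card + (C.filter (fun e => b e = v)).card)

/-- A circuit: a minimal nonempty edge set with all degrees even. -/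
def Circuit (a b : E → V) (C : Finset E) : Prop :=
  C.Nonempty ∧ EvenSet a b C ∧ ∀ D : Finset E, D ⊆ C → D.Nonempty → EvenSet a b D → D = C

/-- Integer packing: for every edge `r` of `R` a circuit whose only edge of `R` is `r`, these
circuits being pairwise edge-disjoint. -/
def IntPack (a b : E → V) (R : Finset E) : Prop :=
  ∃ f : E → Finset E, (∀ r ∈ R, Circuit a b (f r) ∧ f r ∩ R = {r}) ∧
    ∀ r₁ ∈ R, ∀ r₂ ∈ R, r₁ ≠ r₂ → Disjoint (f r₁) (f r₂)

/-- Fractional packing: nonnegative weights on the circuits with exactly one edge of `R`, of total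
one on every edge of `R` and at most one on every other edge. -/
def FracPack (a b : E → V) (R : Finset E) : Prop :=
  ∃ w : Finset E → ℝ, (∀ C, 0 ≤ w C) ∧ (∀ C, w C ≠ 0 → Circuit a b C ∧ (C ∩ R).card = 1) ∧
    (∀ e ∈ R, (∑ C : Finset E, if e ∈ C then w C else 0) = 1) ∧
    ∀ e ∉ R, (∑ C : Finset E, if e ∈ C then w C else 0) ≤ 1

/-- The least `l`-length of a set of edges outside `R` that connects the two ends of `e`. -/
noncomputable def mu (a b : E → V) (R : Finset E) (l : E → ℕ∞) (e : E) : ℕ∞ :=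
  ⨅ (P : Finset E) (_ : Disjoint P R ∧ Relation.ReflTransGen
    (fun u v => ∃ x ∈ P, (a x = u ∧ b x = v) ∨ (a x = v ∧ b x = u)) (a e) (b e)), ∑ x ∈ P, l x

/-- The distance inequality holds for every `l` with values `0`, `1`, `∞` that is even on the
circuits outside `R` of finite length. -/
def DistCond (a b : E → V) (R : Finset E) : Prop :=
  ∀ l : E → ℕ∞, (∀ e, l e = 0 ∨ l e = 1 ∨ l e = ⊤) →
    (∀ C, Circuit a b C → Disjoint C R → ∀ n : ℕ, ∑ e ∈ C, l e = n → Even n) →
    ∑ r ∈ R, mu a b R l r ≤ ∑ e ∈ Rᶜ, mu a b R l e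

open Pool.Agent.P.MP_af70e5_co Finset in
/-- A simple graph on seven vertices: in every Eulerian multigraph obtained by replacing each edge
by any number of parallel copies (zero allowed) integer and fractional packings are equivalent,
but one Eulerian extension satisfies all distance inequalities and has no packing. -/
theorem result : ∃ s t : Fin 14 → Fin 7, (∀ e, s e < t e) ∧
    Function.Injective (fun e => (s e, t e)) ∧
    (∀ (R : Finset (Fin 14)) (H : Type) [Fintype H] [DecidableEq H] (φ : H → Fin 14),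
      EvenSet (s ∘ φ) (t ∘ φ) Finset.univ →
      (IntPack (s ∘ φ) (t ∘ φ) (Finset.univ.filter fun x => φ x ∈ R) ↔
        FracPack (s ∘ φ) (t ∘ φ) (Finset.univ.filter fun x => φ x ∈ R))) ∧
    ∃ (R : Finset (Fin 14)) (φ : Fin 19 → Fin 14), Function.Surjective φ ∧
      EvenSet (s ∘ φ) (t ∘ φ) Finset.univ ∧
      DistCond (s ∘ φ) (t ∘ φ) (Finset.univ.filter fun x => φ x ∈ R) ∧
      ¬ IntPack (s ∘ φ) (t ∘ φ) (Finset.univ.filter fun x => φ x ∈ R) ∧
      ¬ FracPack (s ∘ φ) (t ∘ φ) (Finset.univ.filter fun x => φ x ∈ R) := by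
  have hi : ∀ {H : Type} [Fintype H] [DecidableEq H] (p : H → Prop) [DecidablePred p]
      (C : Finset H), C ∩ univ.filter p = C.filter p := fun p _ C => by
    ext x
    simp
  have hd : ∀ {H : Type} [Fintype H] [DecidableEq H] (p : H → Prop) [DecidablePred p]
      (C : Finset H), Disjoint C (univ.filter p) ↔ ∀ e ∈ C, ¬ p e := fun p _ C => by
    simp [disjoint_left]
  have key : ∀ (R : Finset (Fin 14)) (H : Type) [Fintype H] [DecidableEq H] (φ : H → Fin 14),
      EvenSet (sv ∘ φ) (tv ∘ φ) Finset.univ →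
      (IntPack (sv ∘ φ) (tv ∘ φ) (Finset.univ.filter fun x => φ x ∈ R) ↔
        FracPack (sv ∘ φ) (tv ∘ φ) (Finset.univ.filter fun x => φ x ∈ R)) := by
    intro R H _ _ φ hE
    simp only [IntPack, FracPack, hi, mem_filter, mem_univ, true_and]
    constructor
    · rintro ⟨f, h1, h2⟩
      exact frac_of_packing φ R _ f h1 fun r₁ r₂ a b => h2 r₁ a r₂ b
    · rintro ⟨w, h0, h1, h2, h3⟩
      obtain ⟨f, k1, k2⟩ := packing_of_frac0 φ R hE w h0 h1 h2 h3
      exact ⟨f, k1, fun r₁ a r₂ b => k2 r₁ r₂ a b⟩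
  have nf : ¬ FracPack (sv ∘ φ₀) (tv ∘ φ₀) (Finset.univ.filter fun x => φ₀ x ∈ R₀) := by
    simp only [FracPack, hi, mem_filter, mem_univ, true_and]
    rintro ⟨w, h0, h1, h2, h3⟩
    exact no_frac w h0 h1 h2 h3
  refine ⟨sv, tv, by decide +kernel, by decide +kernel, key, R₀, φ₀, surj₀, euler₀, ?_,
    fun h => nf ((key R₀ _ φ₀ euler₀).1 h), nf⟩
  intro l h1 h2
  have h3 := dist_ineq l h1 fun C hC hR => by
    by_cases ht : ∑ e ∈ C, l e = ⊤
    · exact ⟨⊤, by rw [ht]; rfl⟩
    · obtain ⟨n, hn⟩ := ENat.ne_top_iff_exists.1 ht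
      obtain ⟨k, hk⟩ := h2 C hC ((hd _ C).2 hR) n hn.symm
      exact ⟨k, by rw [← hn, hk]; push_cast; rfl⟩
  simp only [mu, hd, compl_filter]
  exact h3

end Pool.Agent.Results.MP_af70e5_co.Routing
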